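import Pool.Agent.Helper28.BA.GoalsB

/-! Packet BA-CT (MP_f7b570_an): the Cauchy transform, the Cauchy-Pompeiu formula and decay. -/

open Complex MeasureTheory Set Filter Topology ContDiff

namespace Pool.Agent.Helper54.BA

open Pool.Agent.Helper28.BA

/-! ### `1/z` is locally integrable -/

theorem inv_locInt : LocallyIntegrable (fun z : ℂ => z⁻¹) volume := by
  rw [locallyIntegrable_iff]
  intro k hk
  obtain ⟨R, hR⟩ := hk.isBounded.exists_norm_le
  have h1 : Integrable (fun z : ℂ => (Ioc (0 : ℝ) R).indicator (fun y : ℝ => y⁻¹) ‖z‖) volume := by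
    rw [integrable_fun_norm_addHaar volume (f := (Ioc (0 : ℝ) R).indicator (fun y : ℝ => y⁻¹))]
    rw [Complex.finrank_real_complex]
    have h2 : (fun y : ℝ => y ^ (2 - 1) • (Ioc (0 : ℝ) R).indicator (fun y : ℝ => y⁻¹) y) =
        (Ioc (0 : ℝ) R).indicator (fun _ => (1 : ℝ)) := by
      ext y
      by_cases hy : y ∈ Ioc (0 : ℝ) R
      · rw [indicator_of_mem hy, indicator_of_mem hy]
        simp [hy.1.ne']
      · rw [indicator_of_notMem hy, indicator_of_notMem hy]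
        simp
    rw [h2]
    exact ((integrable_indicator_iff measurableSet_Ioc).2 (by simp)).integrableOn
  refine Integrable.mono' (h1.integrableOn (s := k)) (by fun_prop) ?_
  refine (ae_restrict_iff' hk.measurableSet).2 (Eventually.of_forall fun z hz => ?_)
  rcases eq_or_ne z 0 with rfl | hz0
  · simp
  · rw [indicator_of_mem (show ‖z‖ ∈ Ioc (0 : ℝ) R from ⟨norm_pos_iff.2 hz0, hR z hz⟩), norm_inv]

/-! ### the Cauchy-Pompeiu formula at the origin -/

/-- the exponential in the form of the polar coordinates -/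
noncomputable def ex (θ : ℝ) : ℂ := Real.cos θ + Real.sin θ * I

theorem ex_eq (θ : ℝ) : ex θ = exp (θ * I) := by
  rw [ex, exp_mul_I, ofReal_cos, ofReal_sin]

theorem ex_ne (θ : ℝ) : ex θ ≠ 0 := by
  rw [ex_eq]
  exact exp_ne_zero _

theorem norm_ex (θ : ℝ) : ‖ex θ‖ = 1 := by
  rw [ex_eq]
  exact norm_exp_ofReal_mul_I θ

theorem continuous_ex : Continuous ex := by
  unfold ex
  fun_prop

theorem ex_mul_conj (θ : ℝ) : ex θ * (starRingEnd ℂ) (ex θ) = 1 := by
  rw [mul_conj, normSq_eq_norm_sq, norm_ex]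
  simp

theorem hasDerivAt_ex (θ : ℝ) : HasDerivAt ex (I * ex θ) θ := by
  have h : HasDerivAt (fun θ : ℝ => exp (θ * I)) (exp (θ * I) * (1 * I)) θ :=
    (HasDerivAt.mul_const (ofRealCLM.hasDerivAt (x := θ)) I).cexp
  have h2 : ex = fun θ : ℝ => exp (θ * I) := funext ex_eq
  rw [h2]
  convert h using 1
  simp only
  ring

/-- algebra: `exp(-iθ) ∂̄` in polar coordinates -/
theorem db_polar (L : ℂ →L[ℝ] ℂ) (θ : ℝ) :
    (ex θ)⁻¹ * ((1 / 2 : ℂ) * (L 1 + I * L I)) =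
      (1 / 2 : ℂ) * (L (ex θ) + I * L (I * ex θ)) := by
  have h1 : ex θ = Real.cos θ • (1 : ℂ) + Real.sin θ • I := by
    rw [ex]
    simp
  have h2 : I * ex θ = Real.cos θ • I + (-Real.sin θ) • (1 : ℂ) := by
    rw [ex]
    simp only [real_smul, ofReal_neg]
    linear_combination (Real.sin θ : ℂ) * I_mul_I
  have h3 : (ex θ)⁻¹ = Real.cos θ - Real.sin θ * I := by
    rw [inv_eq_of_mul_eq_one_right (ex_mul_conj θ)]
    rw [ex]
    simp only [map_add, map_mul, conj_ofReal, conj_I]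
    ring
  rw [h3, h2, h1]
  rw [map_add, map_add, map_smul, map_smul, map_smul, map_smul]
  simp only [real_smul, ofReal_neg]
  linear_combination (-(1 / 2 : ℂ) * (Real.sin θ : ℂ) * L I) * I_mul_I

variable {k : ℂ → ℂ}

theorem bound_supp (hk : HasCompactSupport k) : ∃ R : ℝ, 0 < R ∧ ∀ z, R ≤ ‖z‖ →
    k z = 0 ∧ fderiv ℝ k z = 0 := by
  obtain ⟨R, hR⟩ := (hk : IsCompact (tsupport k)).isBounded.exists_norm_le
  refine ⟨max R 0 + 1, by positivity, fun z hz => ?_⟩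
  have h1 : z ∉ tsupport k := by
    intro h
    have := hR z h
    have := le_max_left R 0
    linarith
  refine ⟨image_eq_zero_of_notMem_tsupport h1, ?_⟩
  by_contra h
  exact h1 (support_fderiv_subset ℝ (f := k) (by exact h))

theorem radial (hk : ContDiff ℝ 1 k) (hc : HasCompactSupport k) (θ : ℝ) :
    ∫ r in Ioi (0 : ℝ), fderiv ℝ k (r * ex θ) (ex θ) = -k 0 := by
  obtain ⟨R, hR, h0⟩ := bound_supp hc
  have hd : ∀ r ∈ Ici (0 : ℝ), HasDerivAt (fun r : ℝ => k (r * ex θ))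
      (fderiv ℝ k (r * ex θ) (ex θ)) r := by
    intro r _
    have h1 : HasDerivAt (fun r : ℝ => (r : ℂ) * ex θ) (1 * ex θ) r :=
      HasDerivAt.mul_const (ofRealCLM.hasDerivAt (x := r)) _
    have h2 := ((hk.differentiable one_ne_zero) (r * ex θ)).hasFDerivAt
    have h3 := h2.comp_hasDerivAt r h1
    rw [one_mul] at h3
    exact h3
  have hcont : Continuous fun r : ℝ => fderiv ℝ k (r * ex θ) (ex θ) := by
    have := hk.continuous_fderiv one_ne_zero
    fun_prop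
  have hzero : ∀ r : ℝ, R ≤ r → fderiv ℝ k (r * ex θ) = 0 ∧ k (r * ex θ) = 0 := by
    intro r hr
    have := h0 (r * ex θ) (by
      rw [norm_mul, norm_ex, mul_one, Complex.norm_real, Real.norm_eq_abs]
      exact hr.trans (le_abs_self r))
    exact ⟨this.2, this.1⟩
  have hint : IntegrableOn (fun r : ℝ => fderiv ℝ k (r * ex θ) (ex θ)) (Ioi 0) := by
    refine IntegrableOn.of_forall_sdiff_eq_zero (s := Icc 0 R)
      hcont.continuousOn.integrableOn_Icc measurableSet_Ioi ?_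
    intro r hr
    rw [(hzero r ?_).1]
    · rfl
    · by_contra h
      exact hr.2 ⟨le_of_lt hr.1, (not_le.1 h).le⟩
  have htend : Tendsto (fun r : ℝ => k (r * ex θ)) atTop (𝓝 0) := by
    refine tendsto_const_nhds.congr' ?_
    filter_upwards [eventually_ge_atTop R] with r hr
    exact (hzero r hr).2.symm
  rw [integral_Ioi_of_hasDerivAt_of_tendsto' hd hint htend]
  simp

theorem angular (hk : ContDiff ℝ 1 k) (r : ℝ) (hr : 0 < r) :
    ∫ θ in Ioo (-Real.pi) Real.pi, fderiv ℝ k (r * ex θ) (I * ex θ) = 0 := by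
  have hd : ∀ θ : ℝ, HasDerivAt (fun θ : ℝ => k (r * ex θ))
      (fderiv ℝ k (r * ex θ) (r * (I * ex θ))) θ := by
    intro θ
    have h1 : HasDerivAt (fun θ : ℝ => (r : ℂ) * ex θ) (r * (I * ex θ)) θ :=
      HasDerivAt.const_mul _ (hasDerivAt_ex θ)
    have h2 := ((hk.differentiable one_ne_zero) (r * ex θ)).hasFDerivAt
    exact h2.comp_hasDerivAt θ h1
  have hcont : Continuous fun θ : ℝ => fderiv ℝ k (r * ex θ) (r * (I * ex θ)) := by
    have := hk.continuous_fderiv one_ne_zero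
    have := continuous_ex
    fun_prop
  have h1 : ∫ θ in (-Real.pi)..Real.pi, fderiv ℝ k (r * ex θ) (r * (I * ex θ)) = 0 := by
    rw [intervalIntegral.integral_eq_sub_of_hasDerivAt (fun θ _ => hd θ)
      (hcont.intervalIntegrable _ _)]
    simp [ex]
  rw [intervalIntegral.integral_of_le (by linarith [Real.pi_pos]),
    integral_Ioc_eq_integral_Ioo] at h1
  have h2 : ∀ θ : ℝ, fderiv ℝ k (r * ex θ) (r * (I * ex θ)) =
      r • fderiv ℝ k (r * ex θ) (I * ex θ) := by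
    intro θ
    rw [← map_smul]
    simp
  simp only [h2] at h1
  rw [integral_smul] at h1
  exact (smul_eq_zero.1 h1).resolve_left hr.ne'

theorem pompeiu (hk : ContDiff ℝ 1 k) (hc : HasCompactSupport k) :
    ∫ z : ℂ, z⁻¹ * db k z = -Real.pi * k 0 := by
  obtain ⟨R, hR, h0⟩ := bound_supp hc
  rw [← Complex.integral_comp_polarCoord_symm]
  have hfd := hk.continuous_fderiv one_ne_zero
  have hex := continuous_ex
  have htar : polarCoord.target = Ioi (0 : ℝ) ×ˢ Ioo (-Real.pi) Real.pi := rfl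
  have hmeas : MeasurableSet (Ioi (0 : ℝ) ×ˢ Ioo (-Real.pi) Real.pi) :=
    measurableSet_Ioi.prod measurableSet_Ioo
  -- the two parts
  have hzero : ∀ r θ : ℝ, R ≤ r → fderiv ℝ k (r * ex θ) = 0 := by
    intro r θ hr
    exact (h0 (r * ex θ) (by
      rw [norm_mul, norm_ex, mul_one, Complex.norm_real, Real.norm_eq_abs]
      exact hr.trans (le_abs_self r))).2
  have hint : ∀ F : ℝ → ℂ, Continuous F →
      IntegrableOn (fun p : ℝ × ℝ => fderiv ℝ k (p.1 * ex p.2) (F p.2))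
        (Ioi (0 : ℝ) ×ˢ Ioo (-Real.pi) Real.pi) := by
    intro F hF
    have hcont : Continuous fun p : ℝ × ℝ => fderiv ℝ k (p.1 * ex p.2) (F p.2) := by
      fun_prop
    refine IntegrableOn.of_forall_sdiff_eq_zero (s := Icc 0 R ×ˢ Icc (-Real.pi) Real.pi)
      (hcont.continuousOn.integrableOn_compact (isCompact_Icc.prod isCompact_Icc)) hmeas ?_
    intro p hp
    rw [hzero p.1 p.2 ?_]
    · rfl
    · by_contra h
      exact hp.2 ⟨⟨le_of_lt hp.1.1, (not_le.1 h).le⟩, ⟨hp.1.2.1.le, hp.1.2.2.le⟩⟩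
  have hA := hint ex hex
  have hB := hint (fun θ => I * ex θ) (by fun_prop)
  have hA' : ∫ p in Ioi (0 : ℝ) ×ˢ Ioo (-Real.pi) Real.pi, fderiv ℝ k (p.1 * ex p.2) (ex p.2) =
      -(2 * Real.pi) * k 0 := by
    rw [Measure.volume_eq_prod] at hA ⊢
    rw [setIntegral_prod _ hA, integral_integral_swap]
    · rw [setIntegral_congr_fun (g := fun _ => -k 0) measurableSet_Ioo
        (fun θ _ => radial hk hc θ), setIntegral_const]
      rw [Measure.real, Real.volume_Ioo, ENNReal.toReal_ofReal (by linarith [Real.pi_pos])]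
      rw [real_smul]
      push_cast
      ring
    · rw [Measure.prod_restrict]
      exact hA
  have hB' : ∫ p in Ioi (0 : ℝ) ×ˢ Ioo (-Real.pi) Real.pi,
      fderiv ℝ k (p.1 * ex p.2) (I * ex p.2) = 0 := by
    rw [Measure.volume_eq_prod] at hB ⊢
    rw [setIntegral_prod _ hB]
    refine setIntegral_eq_zero_of_forall_eq_zero fun r hr => ?_
    exact angular hk r hr
  have hEq : ∀ p ∈ Ioi (0 : ℝ) ×ˢ Ioo (-Real.pi) Real.pi,
      p.1 • ((Complex.polarCoord.symm p)⁻¹ * db k (Complex.polarCoord.symm p)) =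
      (1 / 2 : ℂ) * (fderiv ℝ k (p.1 * ex p.2) (ex p.2) +
        I * fderiv ℝ k (p.1 * ex p.2) (I * ex p.2)) := by
    intro p hp
    have hp1 : (p.1 : ℂ) ≠ 0 := by exact_mod_cast (ne_of_gt hp.1)
    rw [Complex.polarCoord_symm_apply, ← ex, ← db_polar, mul_inv, real_smul, db]
    field_simp
  rw [htar, setIntegral_congr_fun hmeas hEq, integral_const_mul, integral_add hA (hB.const_mul _),
    integral_const_mul, hA', hB']
  ring

/-! ### the Cauchy transform -/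

/-- the Cauchy transform -/
noncomputable def CV (h : ℂ → ℂ) : ℂ → ℂ :=
  convolution (fun z : ℂ => ((Real.pi : ℂ)⁻¹) * z⁻¹) h (ContinuousLinearMap.mul ℝ ℂ) volume

variable {h : ℂ → ℂ}

theorem ker_locInt : LocallyIntegrable (fun z : ℂ => ((Real.pi : ℂ)⁻¹) * z⁻¹) volume := by
  intro x
  obtain ⟨s, hs, hi⟩ := inv_locInt x
  exact ⟨s, hs, hi.const_mul _⟩

theorem CV_smooth (h1 : ContDiff ℝ ∞ h) (h2 : HasCompactSupport h) : ContDiff ℝ ∞ (CV h) :=
  h2.contDiff_convolution_right _ ker_locInt h1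

theorem CV_fderiv (h1 : ContDiff ℝ 1 h) (h2 : HasCompactSupport h) (z v : ℂ) :
    fderiv ℝ (CV h) z v = ∫ t : ℂ, ((Real.pi : ℂ)⁻¹ * t⁻¹) * fderiv ℝ h (z - t) v := by
  rw [CV, (h2.hasFDerivAt_convolution_right (ContinuousLinearMap.mul ℝ ℂ) ker_locInt h1 z).fderiv,
    convolution_precompR_apply _ ker_locInt (h2.fderiv ℝ) (h1.continuous_fderiv one_ne_zero)]
  rfl

theorem CV_int (h1 : ContDiff ℝ 1 h) (h2 : HasCompactSupport h) (z v : ℂ) :
    Integrable (fun t : ℂ => ((Real.pi : ℂ)⁻¹ * t⁻¹) * fderiv ℝ h (z - t) v) := by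
  have h3 : HasCompactSupport fun a => fderiv ℝ h a v := h2.fderiv_apply (𝕜 := ℝ) v
  have h4 : Continuous fun a => fderiv ℝ h a v :=
    (h1.continuous_fderiv one_ne_zero).clm_apply continuous_const
  exact h3.convolutionExists_right (ContinuousLinearMap.mul ℝ ℂ) ker_locInt h4 z

theorem CV_db (h1 : ContDiff ℝ 1 h) (h2 : HasCompactSupport h) (z : ℂ) : db (CV h) z = h z := by
  let k : ℂ → ℂ := fun t => h (z - t)
  have hk1 : ContDiff ℝ 1 k := h1.comp (contDiff_const.sub contDiff_id)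
  have hk2 : HasCompactSupport k := by
    exact h2.comp_homeomorph (Homeomorph.subLeft z)
  have hk3 : ∀ t v, fderiv ℝ k t v = -fderiv ℝ h (z - t) v := by
    intro t v
    have h3 : HasFDerivAt k ((fderiv ℝ h (z - t)).comp (-ContinuousLinearMap.id ℝ ℂ)) t := by
      refine ((h1.differentiable one_ne_zero) (z - t)).hasFDerivAt.comp t ?_
      exact (hasFDerivAt_id t).const_sub z
    rw [h3.fderiv]
    simp
  have h4 := pompeiu hk1 hk2
  have h5 : ∀ t, ((Real.pi : ℂ)⁻¹ * t⁻¹) * fderiv ℝ h (z - t) 1 +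
      I * (((Real.pi : ℂ)⁻¹ * t⁻¹) * fderiv ℝ h (z - t) I) =
      (-2 * (Real.pi : ℂ)⁻¹) * (t⁻¹ * db k t) := by
    intro t
    rw [db, hk3, hk3]
    ring
  rw [db, CV_fderiv h1 h2, CV_fderiv h1 h2, ← integral_const_mul, ← integral_add (CV_int h1 h2 z 1)
    ((CV_int h1 h2 z I).const_mul _)]
  simp only [h5]
  rw [integral_const_mul, h4]
  have hpi : (Real.pi : ℂ) ≠ 0 := by exact_mod_cast Real.pi_ne_zero
  field_simp
  simp [k]

/-! ### decay -/

theorem CV_bound (h1 : Continuous h) (h2 : HasCompactSupport h) {R : ℝ} (hR : 0 < R)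
    (h0 : ∀ z, R ≤ ‖z‖ → h z = 0) (z : ℂ) (hz : 2 * R ≤ ‖z‖) :
    ‖CV h z‖ * ‖z‖ ^ 1 ≤ 2 * Real.pi⁻¹ * ∫ t, ‖h t‖ := by
  have hz0 : 0 < ‖z‖ := by linarith
  have h3 : CV h z = ∫ t, ((Real.pi : ℂ)⁻¹ * (z - t)⁻¹) * h t := by
    rw [← integral_sub_left_eq_self _ volume z]
    simp only [sub_sub_cancel]
    rfl
  have h4 : ‖CV h z‖ ≤ ∫ t, (2 * Real.pi⁻¹ * ‖z‖⁻¹) * ‖h t‖ := by
    rw [h3]
    refine norm_integral_le_of_norm_le ?_ (Eventually.of_forall fun t => ?_)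
    · exact (h1.integrable_of_hasCompactSupport h2).norm.const_mul _
    · by_cases ht : h t = 0
      · simp [ht]
      · have h5 : ‖t‖ < R := by
          by_contra hc
          exact ht (h0 t (not_lt.1 hc))
        have h6 : ‖z‖ / 2 ≤ ‖z - t‖ := by
          have := norm_sub_norm_le z t
          linarith
        rw [norm_mul, norm_mul, norm_inv, norm_inv, Complex.norm_real, Real.norm_eq_abs,
          abs_of_pos Real.pi_pos]
        have h7 : ‖z - t‖⁻¹ ≤ 2 * ‖z‖⁻¹ := by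
          calc ‖z - t‖⁻¹ ≤ (‖z‖ / 2)⁻¹ := inv_anti₀ (by positivity) h6
            _ = 2 * ‖z‖⁻¹ := by field_simp
        have h8 : (0 : ℝ) ≤ Real.pi⁻¹ := by positivity
        calc Real.pi⁻¹ * ‖z - t‖⁻¹ * ‖h t‖ ≤ Real.pi⁻¹ * (2 * ‖z‖⁻¹) * ‖h t‖ := by gcongr
          _ = _ := by ring
  rw [integral_const_mul] at h4
  calc ‖CV h z‖ * ‖z‖ ^ 1 ≤ (2 * Real.pi⁻¹ * ‖z‖⁻¹ * ∫ t, ‖h t‖) * ‖z‖ ^ 1 := by gcongr
    _ = _ := by field_simp

theorem decay {f : ℂ → ℂ} {ρ C : ℝ} (m : ℕ) (hρ : 0 < ρ)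
    (hf : ∀ w, ρ ≤ ‖w‖ → DifferentiableAt ℂ f w) (hb : ∀ w, ρ ≤ ‖w‖ → ‖f w‖ * ‖w‖ ^ m ≤ C)
    (z : ℂ) (hz : 2 * ρ ≤ ‖z‖) : ‖deriv f z‖ * ‖z‖ ^ (m + 1) ≤ 2 ^ (m + 1) * C := by
  have hz0 : 0 < ‖z‖ := by linarith
  have hsub : ∀ w ∈ Metric.closedBall z (‖z‖ / 2), ‖z‖ / 2 ≤ ‖w‖ := by
    intro w hw
    rw [Metric.mem_closedBall, dist_comm, dist_eq_norm] at hw
    have := norm_sub_norm_le z w
    linarith
  have hC : 0 ≤ C := (by positivity : (0 : ℝ) ≤ ‖f z‖ * ‖z‖ ^ m).trans (hb z (by linarith))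
  have h1 : DiffContOnCl ℂ f (Metric.ball z (‖z‖ / 2)) := by
    refine DifferentiableOn.diffContOnCl_ball (U := {w | ‖z‖ / 2 ≤ ‖w‖}) ?_ hsub
    intro w hw
    refine (hf w ?_).differentiableWithinAt
    have : ‖z‖ / 2 ≤ ‖w‖ := hw
    linarith
  have h2 : ∀ w ∈ Metric.sphere z (‖z‖ / 2), ‖f w‖ ≤ C / (‖z‖ / 2) ^ m := by
    intro w hw
    have h3 := hsub w (Metric.sphere_subset_closedBall hw)
    rw [le_div_iff₀ (by positivity)]
    refine le_trans ?_ (hb w (by linarith))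
    gcongr
  have h3 := Complex.norm_deriv_le_of_forall_mem_sphere_norm_le (by positivity) h1 h2
  calc ‖deriv f z‖ * ‖z‖ ^ (m + 1) ≤ (C / (‖z‖ / 2) ^ m / (‖z‖ / 2)) * ‖z‖ ^ (m + 1) := by gcongr
    _ = 2 ^ (m + 1) * C := by
      rw [div_pow]
      field_simp
      ring

theorem global {E : Type*} [NormedAddCommGroup E] {F : ℂ → E} (hF : Continuous F) {ρ C : ℝ}
    (m : ℕ) (hρ : 0 < ρ) (hb : ∀ z, ρ ≤ ‖z‖ → ‖F z‖ * ‖z‖ ^ m ≤ C) :
    ∃ C' : ℝ, ∀ z, ‖F z‖ * (1 + ‖z‖) ^ m ≤ C' := by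
  obtain ⟨M, hM⟩ := (isCompact_closedBall (0 : ℂ) ρ).exists_bound_of_continuousOn
    (f := fun z => ‖F z‖ * (1 + ‖z‖) ^ m) (by fun_prop)
  refine ⟨max M ((1 + ρ⁻¹) ^ m * C), fun z => ?_⟩
  rcases le_total ‖z‖ ρ with h | h
  · have := hM z (by simpa using h)
    exact ((Real.le_norm_self _).trans this).trans (le_max_left _ _)
  · refine le_trans ?_ (le_max_right _ _)
    have h1 : 1 + ‖z‖ ≤ (1 + ρ⁻¹) * ‖z‖ := by
      have : 1 ≤ ρ⁻¹ * ‖z‖ := by
        rw [← div_eq_inv_mul, le_div_iff₀ hρ]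
        linarith
      linarith
    calc ‖F z‖ * (1 + ‖z‖) ^ m ≤ ‖F z‖ * ((1 + ρ⁻¹) * ‖z‖) ^ m := by gcongr
      _ = (1 + ρ⁻¹) ^ m * (‖F z‖ * ‖z‖ ^ m) := by
        rw [mul_pow]
        ring
      _ ≤ _ := by
        have := hb z h
        gcongr

/-- **CT** -/
theorem CT : S_CT := by
  intro h h1 h2
  have h1' : ContDiff ℝ 1 h := h1.of_le (by exact_mod_cast le_top)
  obtain ⟨R, hR, h0⟩ := bound_supp h2
  have hV := CV_smooth h1 h2
  have hV1 : ContDiff ℝ 1 (CV h) := hV.of_le (by exact_mod_cast le_top)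
  have hV2 : ContDiff ℝ 2 (CV h) := contDiff_infty.1 hV 2
  refine ⟨CV h, hV, CV_db h1' h2, ?_⟩
  have hD : ∀ w, R ≤ ‖w‖ → DifferentiableAt ℂ (CV h) w := by
    intro w hw
    rw [differentiableAt_complex_iff_differentiableAt_real]
    refine ⟨hV1.differentiable one_ne_zero w, ?_⟩
    have h3 := CV_db h1' h2 w
    rw [(h0 w hw).1, db, smul_eq_mul] at *
    linear_combination (-2 * I) * h3 + (fderiv ℝ (CV h) w I) * I_mul_I
  have hA : ∀ w, R < ‖w‖ → AnalyticAt ℂ (CV h) w := by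
    intro w hw
    refine DifferentiableOn.analyticAt (s := {w | R < ‖w‖})
      (fun v hv => (hD v (le_of_lt hv)).differentiableWithinAt) ?_
    exact (isOpen_lt continuous_const continuous_norm).mem_nhds hw
  have hfd : ∀ w, R < ‖w‖ → fderiv ℝ (CV h) w = ContinuousLinearMap.mul ℝ ℂ (deriv (CV h) w) := by
    intro w hw
    have := (hD w hw.le).hasFDerivAt.restrictScalars ℝ
    rw [this.fderiv]
    ext v
    simp [mul_comm]
  have hfd2 : ∀ w, R < ‖w‖ → ‖fderiv ℝ (fderiv ℝ (CV h)) w‖ ≤ ‖deriv (deriv (CV h)) w‖ := by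
    intro w hw
    have h3 : fderiv ℝ (CV h) =ᶠ[𝓝 w] fun v => ContinuousLinearMap.mul ℝ ℂ (deriv (CV h) v) := by
      filter_upwards [(isOpen_lt continuous_const continuous_norm).mem_nhds hw] with v hv
      exact hfd v hv
    rw [h3.fderiv_eq]
    have h4 : DifferentiableAt ℂ (deriv (CV h)) w := (hA w hw).deriv.differentiableAt
    have h5 := (ContinuousLinearMap.mul ℝ ℂ).hasFDerivAt.comp w
      (h4.hasFDerivAt.restrictScalars ℝ)
    have h8 : fderiv ℝ (fun v => (ContinuousLinearMap.mul ℝ ℂ) (deriv (CV h) v)) w = _ :=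
      HasFDerivAt.fderiv h5
    rw [h8]
    refine (ContinuousLinearMap.opNorm_comp_le _ _).trans ?_
    have h6 : ‖(ContinuousLinearMap.mul ℝ ℂ)‖ ≤ 1 := ContinuousLinearMap.opNorm_mul_le ℝ ℂ
    have h7 : ‖(fderiv ℂ (deriv (CV h)) w).restrictScalars ℝ‖ ≤ ‖deriv (deriv (CV h)) w‖ := by
      rw [ContinuousLinearMap.norm_restrictScalars, ← norm_deriv_eq_norm_fderiv]
    calc _ ≤ 1 * ‖deriv (deriv (CV h)) w‖ := by
          gcongr
      _ = _ := one_mul _
  have hb1 : ∀ z, 2 * R ≤ ‖z‖ → ‖CV h z‖ * ‖z‖ ^ 1 ≤ 2 * Real.pi⁻¹ * ∫ t, ‖h t‖ :=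
    fun z hz => CV_bound h1.continuous h2 hR (fun w hw => (h0 w hw).1) z hz
  have hb2 := decay 1 (f := CV h) (by positivity) (fun w hw => hD w (by linarith)) hb1
  have hb3 := decay 2 (f := deriv (CV h)) (ρ := 2 * (2 * R)) (by positivity)
    (fun w hw => (hA w (by linarith)).deriv.differentiableAt) (fun w hw => hb2 w hw)
  obtain ⟨C₁, hC₁⟩ := global hV1.continuous 1 (by positivity) hb1
  obtain ⟨C₂, hC₂⟩ := global (F := fderiv ℝ (CV h)) (hV1.continuous_fderiv one_ne_zero)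
    (ρ := 2 * (2 * R)) 2 (by positivity) (fun z hz => by
      have h3 : ‖fderiv ℝ (CV h) z‖ ≤ ‖deriv (CV h) z‖ := by
        rw [hfd z (by linarith)]
        exact ContinuousLinearMap.opNorm_mul_apply_le ℝ ℂ _
      exact (mul_le_mul_of_nonneg_right h3 (by positivity)).trans (hb2 z hz))
  obtain ⟨C₃, hC₃⟩ := global (F := fderiv ℝ (fderiv ℝ (CV h))) (by
      have : ContDiff ℝ 1 (fderiv ℝ (CV h)) := hV2.fderiv_right (by norm_num)
      exact this.continuous_fderiv one_ne_zero)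
    (ρ := 2 * (2 * (2 * R))) 3 (by positivity) (fun z hz => by
      exact (mul_le_mul_of_nonneg_right (hfd2 z (by linarith)) (by positivity)).trans (hb3 z hz))
  refine ⟨max C₁ (max C₂ C₃), fun z => ⟨?_, ?_, ?_⟩⟩
  · have := hC₁ z
    rw [pow_one] at this
    exact this.trans (le_max_left _ _)
  · exact (hC₂ z).trans ((le_max_left _ _).trans (le_max_right _ _))
  · exact (hC₃ z).trans ((le_max_right _ _).trans (le_max_right _ _))

end Pool.Agent.Helper54.BA
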